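import Pool.Agent.H67.CloDefs

open Pool.Agent.H67.Clo Filter Topology

namespace Pool.Agent.Results.MP_4caafd_al.Rees

abbrev G := ℕ → ZMod 2

@[ext] structure X where
  i : G
  g : G
  l : Bool

def P (l : Bool) (j : G) : G := if l then j else 0

instance : Semigroup X where
  mul x y := ⟨x.i, x.g + P x.l y.i + y.g, y.l⟩
  mul_assoc x y z := by
    apply X.ext
    · rfl
    · show x.g + P x.l y.i + y.g + P y.l z.i + z.g = x.g + P x.l y.i + (y.g + P y.l z.i + z.g)
      abel
    · rfl

theorem mul_def (x y : X) : x * y = ⟨x.i, x.g + P x.l y.i + y.g, y.l⟩ := rfl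

theorem addself (g : G) : g + g = 0 := by
  funext n; exact CharTwo.add_self_eq_zero _

theorem grp {Y : Type} [t : TopologicalSpace Y] [Semigroup Y] [ContinuousMul Y] [T1Space Y]
    (h : X →ₙ* Y) (he : @IsEmbedding X Y ⊥ t h) (U : Filter X) [U.NeBot] (f : X → G) (z : Y)
    (hz : Tendsto (fun x => h ⟨0, f x, false⟩) U (𝓝 z)) : ∃ g, ∀ᶠ x in U, f x = g := by
  letI : TopologicalSpace X := ⊥
  haveI : DiscreteTopology X := ⟨rfl⟩
  have hm : ∀ a b : G, h ⟨0, a, false⟩ * h ⟨0, b, false⟩ = h ⟨0, a + b, false⟩ := by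
    intro a b; rw [← map_mul, mul_def]; simp [P]
  have h1 : Tendsto (fun _ : X => h ⟨0, 0, false⟩) U (𝓝 (z * z)) := by
    have := hz.mul hz
    simpa only [hm, addself] using this
  have h2 : h ⟨0, 0, false⟩ = z * z := tendsto_const_nhds_iff.1 h1
  obtain ⟨V, hV, hV'⟩ := he.isInducing.isOpen_iff.1 (isOpen_discrete {(⟨0, 0, false⟩ : X)})
  have hzV : z * z ∈ V := by
    rw [← h2]; show (⟨0, 0, false⟩ : X) ∈ h ⁻¹' V; rw [hV']; rfl
  have h3 : ∀ᶠ p in U ×ˢ U, h ⟨0, f p.1, false⟩ * h ⟨0, f p.2, false⟩ ∈ V :=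
    ((hz.comp tendsto_fst).mul (hz.comp tendsto_snd)).eventually (hV.mem_nhds hzV)
  obtain ⟨A, hA, hAA⟩ := mem_prod_self_iff.1 h3
  obtain ⟨x0, hx0⟩ := U.nonempty_of_mem hA
  refine ⟨f x0, mem_of_superset hA fun x hx => ?_⟩
  have h4 : h ⟨0, f x, false⟩ * h ⟨0, f x0, false⟩ ∈ V := hAA (Set.mk_mem_prod hx hx0)
  rw [hm] at h4
  have h5 : (⟨0, f x + f x0, false⟩ : X) ∈ h ⁻¹' V := h4
  rw [hV'] at h5
  have h6 : f x + f x0 = 0 := congrArg X.g h5
  show f x = f x0
  rw [← add_zero (f x), ← addself (f x0), ← add_assoc, h6, zero_add]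

theorem closedX {Y : Type} [t : TopologicalSpace Y] [Semigroup Y] [ContinuousMul Y] [T1Space Y]
    (h : X →ₙ* Y) (he : @IsEmbedding X Y ⊥ t h) : IsClosed (Set.range h) := by
  rw [← closure_subset_iff_isClosed]
  intro y hy
  haveI : (comap h (𝓝 y)).NeBot := by
    rw [comap_neBot_iff]
    intro s hs
    obtain ⟨w, hw, x, rfl⟩ := mem_closure_iff_nhds.1 hy s hs
    exact ⟨x, hw⟩
  have ht : Tendsto h (comap h (𝓝 y)) (𝓝 y) := tendsto_comap
  have k : ∀ l : Bool, Tendsto (fun x : X => h ⟨0, P l x.i + x.g, false⟩) (comap h (𝓝 y))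
      (𝓝 (h ⟨0, 0, l⟩ * y * h ⟨0, 0, false⟩)) := by
    intro l
    have := (ht.const_mul (h ⟨0, 0, l⟩)).mul_const (h ⟨0, 0, false⟩)
    refine this.congr fun x => ?_
    rw [← map_mul, ← map_mul, mul_def, mul_def]
    simp [P]
  obtain ⟨a, ha⟩ := grp h he _ _ _ (k false)
  obtain ⟨b, hb⟩ := grp h he _ _ _ (k true)
  have fin : (h '' {⟨b - a, a, false⟩, ⟨b - a, a, true⟩}).Finite := (Set.toFinite _).image _
  have : y ∈ closure (h '' {⟨b - a, a, false⟩, ⟨b - a, a, true⟩}) := by
    refine mem_closure_of_tendsto ht ?_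
    filter_upwards [ha, hb] with x h1 h2
    refine Set.mem_image_of_mem _ ?_
    obtain ⟨i, g, l⟩ := x
    simp only [P, Bool.false_eq_true, if_false, zero_add, if_true] at h1 h2
    subst h1 h2
    cases l <;> simp
  rw [fin.isClosed.closure_eq] at this
  exact Set.image_subset_range _ _ this

def cI : Con X where
  r x y := x.i = y.i
  iseqv := ⟨fun _ => rfl, Eq.symm, Eq.trans⟩
  mul' := fun h _ => h

end Pool.Agent.Results.MP_4caafd_al.Rees

open Pool.Agent.Results.MP_4caafd_al.Rees in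
theorem Pool.Agent.Results.MP_4caafd_al.Rees.result :
    ∃ (X : Type) (_ : Semigroup X), ∀ C : TSClass,
      (∀ (Y : Type) (t : TopologicalSpace Y) (s : Semigroup Y), ContinuousMul Y → T2Space Y →
        TopologicalSpace.IsTopologicalBasis {U : Set Y | IsClopen U} → C Y t s) →
      (∀ (Y : Type) (t : TopologicalSpace Y) (s : Semigroup Y), C Y t s → T1Space Y) →
      IdeallyClosed C X ∧ ¬ ProjClosed C X := by
  refine ⟨X, inferInstance, fun C hz h1 => ⟨?_, ?_⟩⟩
  · intro I hI c hc Y t s hm hC h he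
    haveI := h1 Y t s hC
    rcases I.eq_empty_or_nonempty with rfl | ⟨x0, hx0⟩
    · letI : TopologicalSpace X := ⊥
      haveI : DiscreteTopology X := ⟨rfl⟩
      letI : TopologicalSpace c.Quotient := ⊥
      haveI : DiscreteTopology c.Quotient := ⟨rfl⟩
      have hb : Function.Bijective (fun x : X => (x : c.Quotient)) :=
        ⟨fun a b e => by simpa using (hc a b).1 (c.eq.1 e), Quotient.mk''_surjective⟩
      have e2 : IsEmbedding (fun x : X => (x : c.Quotient)) :=
        (Homeomorph.ofDiscrete (Equiv.ofBijective _ hb)).isEmbedding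
      have := closedX (h.comp ⟨fun x : X => (x : c.Quotient), fun _ _ => rfl⟩) (he.comp e2)
      have e3 : Set.range (h.comp (⟨fun x : X => (x : c.Quotient), fun _ _ => rfl⟩ : X →ₙ* c.Quotient))
          = Set.range h := hb.2.range_comp h
      rwa [e3] at this
    · have hall : ∀ x, x ∈ I := by
        intro x
        have := (hI _ (hI x0 hx0 ⟨x.i, 0, false⟩).1 ⟨0, x.g - x0.g, x.l⟩).2
        convert this using 1
        apply X.ext <;> simp [mul_def, P]
      haveI : Subsingleton c.Quotient := ⟨fun a b => by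
        obtain ⟨a, rfl⟩ := Quotient.mk''_surjective a
        obtain ⟨b, rfl⟩ := Quotient.mk''_surjective b
        exact c.eq.2 ((hc a b).2 (Or.inl ⟨hall a, hall b⟩))⟩
      exact (Set.finite_range h).isClosed
  · intro hP
    letI : TopologicalSpace cI.Quotient := ⊥
    haveI : DiscreteTopology cI.Quotient := ⟨rfl⟩
    haveI : Infinite cI.Quotient := Infinite.of_injective
      (fun i : G => ((⟨i, 0, false⟩ : X) : cI.Quotient)) (fun a b e => cI.eq.1 e)
    letI sg : Semigroup (OnePoint cI.Quotient) := { mul := fun a _ => a, mul_assoc := fun _ _ _ => rfl }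
    have cm : ContinuousMul (OnePoint cI.Quotient) := ⟨continuous_fst⟩
    have hcl := hP cI (OnePoint cI.Quotient) inferInstance sg cm
      (hz _ _ _ cm inferInstance isTopologicalBasis_isClopen)
      ⟨fun a => (a : OnePoint cI.Quotient), fun a b => by
        obtain ⟨a, rfl⟩ := Quotient.mk''_surjective a
        obtain ⟨b, rfl⟩ := Quotient.mk''_surjective b
        exact congrArg _ (cI.eq.2 rfl)⟩ OnePoint.isOpenEmbedding_coe.isEmbedding
    haveI : NoncompactSpace cI.Quotient := ⟨fun h => Set.infinite_univ h.finite_of_discrete⟩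
    have d := (OnePoint.denseRange_coe (X := cI.Quotient)).closure_range
    have e : closure (Set.range (fun a : cI.Quotient => (a : OnePoint cI.Quotient))) =
      Set.range (fun a : cI.Quotient => (a : OnePoint cI.Quotient)) := hcl.closure_eq
    rw [e] at d
    exact OnePoint.infty_notMem_range_coe (d ▸ Set.mem_univ _)
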